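import Pool.Agent.Run7.h677.PS.Stm

set_option autoImplicit false

namespace Pool.Agent.Run7.h677.PS
open Finset

/-- Fewer than `d + 1` points do not span `ℝ^d`. -/
theorem h617_span_ne_top {d : ℕ} {ι : Type} [Fintype ι] (p : ι → E d)
    (h : Fintype.card ι ≤ d) : affineSpan ℝ (Set.range p) ≠ ⊤ := by
  intro htop
  rcases isEmpty_or_nonempty ι with he | hne
  · rw [Set.range_eq_empty, AffineSubspace.span_empty] at htop
    exact AffineSubspace.bot_ne_top ℝ (E d) (E d) htop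
  · obtain ⟨n, hn⟩ : ∃ n, Fintype.card ι = n + 1 :=
      ⟨Fintype.card ι - 1, by have := Fintype.card_pos (α := ι); omega⟩
    have h1 : Module.finrank ℝ (vectorSpan ℝ (Set.range p)) ≤ n :=
      finrank_vectorSpan_range_le ℝ p hn
    have h2 : vectorSpan ℝ (Set.range p) = ⊤ := by
      rw [← direction_affineSpan, htop, AffineSubspace.direction_top]
    rw [h2, finrank_top, finrank_euclideanSpace_fin] at h1
    omega

/-- Adding a point outside of the affine span. -/
theorem h617_add_point {d : ℕ} {κ ι : Type} (p : κ → E d) (i : κ) (r : ι → E d)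
    (hr : AffineIndependent ℝ r) (f : {z : κ // z ≠ i} → ι) (hfi : Function.Injective f)
    (hf : ∀ z : {z : κ // z ≠ i}, r (f z) = p z)
    (hsp : p i ∉ affineSpan ℝ (Set.range r)) : AffineIndependent ℝ p := by
  refine AffineIndependent.affineIndependent_of_notMem_span (i := i) ?_ ?_
  · have h1 := hr.comp_embedding ⟨f, hfi⟩
    have h2 : (r ∘ (⟨f, hfi⟩ : {z : κ // z ≠ i} ↪ ι)) = fun x : {y // y ≠ i} => p x := by
      funext z
      exact hf z
    rw [h2] at h1
    exact h1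
  · intro hmem
    refine hsp (affineSpan_mono ℝ ?_ hmem)
    rintro _ ⟨z, hz, rfl⟩
    exact ⟨f ⟨z, hz⟩, hf ⟨z, hz⟩⟩

theorem t_EXTQ : S_AVOID → S_EXTQ := by
  intro hav d ι _ X F hd hF hGP U hU hUne
  classical
  have : Fintype ι := Fintype.ofFinite ι
  let Φ : Finset (E d) × Finset ι → AffineSubspace ℝ (E d) := fun p =>
    affineSpan ℝ (Set.range (Sum.elim (fun v : p.1 => (v : E d)) (fun i : p.2 => X i)))
  let I1 : Set (Finset (E d) × Finset ι) := {p | p.1 ∈ F ∧ p.1.card + p.2.card ≤ d}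
  let 𝒜 : Set (AffineSubspace ℝ (E d)) := (Φ '' I1) ∪
    ((fun v : E d => affineSpan ℝ {v}) '' (⋃ σ ∈ F, (σ : Set (E d))))
  have hI1 : I1.Finite := by
    refine Set.Finite.subset (hF.prod (Set.finite_univ (α := Finset ι))) ?_
    rintro ⟨a, b⟩ h
    exact ⟨h.1, Set.mem_univ _⟩
  have hfin : 𝒜.Finite := by
    refine (hI1.image Φ).union ?_
    exact (hF.biUnion (fun σ _ => σ.finite_toSet)).image _
  have htop : ∀ S ∈ 𝒜, S ≠ ⊤ := by
    rintro S (⟨p, hp, rfl⟩ | ⟨v, hv, rfl⟩)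
    · refine h617_span_ne_top _ ?_
      rw [Fintype.card_sum, Fintype.card_coe, Fintype.card_coe]
      exact hp.2
    · have h1 := h617_span_ne_top (d := d) (fun _ : Fin 1 => v) (by simpa using hd)
      rw [Set.range_const] at h1
      exact h1
  obtain ⟨q, hqU, hq⟩ := hav d 𝒜 hfin htop U hU hUne
  have hqσ : ∀ σ ∈ F, q ∉ σ := by
    intro σ hσ hmem
    refine hq (affineSpan ℝ {q}) (Or.inr ⟨q, ?_, rfl⟩) (mem_affineSpan ℝ (Set.mem_singleton q))
    exact Set.mem_biUnion hσ hmem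
  refine ⟨q, hqU, hqσ, ?_⟩
  rintro τ (hτ | ⟨σ, hσ, hτ⟩) y hy
  · exact hGP τ hτ y hy
  · have hqτ : q ∈ τ := (hτ q).2 (Or.inl rfl)
    have hτσ : τ = insert q σ := by
      ext v
      rw [hτ v, Finset.mem_insert]
    have hcard : τ.card = σ.card + 1 := by
      rw [hτσ, Finset.card_insert_of_notMem (hqσ σ hσ)]
    have hAI := hGP σ hσ y (by omega)
    have hmemσ : ∀ v : E d, v ∈ τ → v ≠ q → v ∈ σ := by
      intro v hv hne
      rcases (hτ v).1 hv with h | h
      · exact absurd h hne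
      · exact h
    let f : {z : τ ⊕ y // z ≠ Sum.inl ⟨q, hqτ⟩} → σ ⊕ y := fun z =>
      match z with
      | ⟨Sum.inl v, hv⟩ => Sum.inl ⟨v.1, hmemσ v.1 v.2 (fun h => hv (by
          rcases v with ⟨v, hv'⟩
          subst h
          rfl))⟩
      | ⟨Sum.inr w, _⟩ => Sum.inr w
    refine h617_add_point _ (Sum.inl ⟨q, hqτ⟩) _ hAI f ?_ ?_ ?_
    · rintro ⟨(⟨v, hv⟩ | w), hz⟩ ⟨(⟨v', hv'⟩ | w'), hz'⟩ h
      · simp only [f, Sum.inl.injEq, Subtype.mk.injEq] at h
        subst h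
        rfl
      · simp [f] at h
      · simp [f] at h
      · simp only [f, Sum.inr.injEq] at h
        subst h
        rfl
    · rintro ⟨(⟨v, hv⟩ | w), hz⟩
      · rfl
      · rfl
    · exact hq _ (Or.inl ⟨(σ, y), ⟨hσ, by dsimp only; omega⟩, rfl⟩)

end Pool.Agent.Run7.h677.PS
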