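import Pool.Agent.Run7.h617.PS.EXTQ

set_option autoImplicit false

namespace Pool.Agent.Run7.h677.PS
open Finset

theorem t_GENPOS : S_AVOID → S_GENPOS := by
  intro hav d ι _ X F hF hAI ε hε
  classical
  have : Fintype ι := Fintype.ofFinite ι
  suffices H : ∀ s : Finset ι, ∃ X' : ι → E d, (∀ i, dist (X' i) (X i) < ε) ∧
      ∀ σ ∈ F, ∀ y : Finset ι, y ⊆ s → σ.card + y.card ≤ d + 1 →
        AffineIndependent ℝ (Sum.elim (fun v : σ => (v : E d)) (fun i : y => X' i)) by
    obtain ⟨X', h1, h2⟩ := H Finset.univ
    exact ⟨X', h1, fun σ hσ y hy => h2 σ hσ y (Finset.subset_univ y) hy⟩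
  intro s
  induction s using Finset.induction_on with
  | empty =>
    refine ⟨X, fun i => by simpa using hε, ?_⟩
    intro σ hσ y hy _
    have hye : y = ∅ := Finset.subset_empty.1 hy
    subst hye
    let f : (σ ⊕ (∅ : Finset ι)) → σ := fun z =>
      match z with
      | Sum.inl v => v
      | Sum.inr w => absurd w.2 (Finset.notMem_empty w.1)
    have hfi : Function.Injective f := by
      rintro (v | w) (v' | w') h
      · simp only [f] at h
        rw [h]
      · exact absurd w'.2 (Finset.notMem_empty w'.1)
      · exact absurd w.2 (Finset.notMem_empty w.1)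
      · exact absurd w.2 (Finset.notMem_empty w.1)
    have h1 := (hAI σ hσ).comp_embedding ⟨f, hfi⟩
    have h2 : ((fun v : σ => (v : E d)) ∘ (⟨f, hfi⟩ : (σ ⊕ (∅ : Finset ι)) ↪ σ)) =
        Sum.elim (fun v : σ => (v : E d)) (fun i : (∅ : Finset ι) => X i) := by
      funext z
      rcases z with v | w
      · rfl
      · exact absurd w.2 (Finset.notMem_empty w.1)
    rw [h2] at h1
    exact h1
  | insert a s has ih =>
    obtain ⟨X', hX'1, hX'2⟩ := ih
    let Φ : Finset (E d) × Finset ι → AffineSubspace ℝ (E d) := fun p =>
      affineSpan ℝ (Set.range (Sum.elim (fun v : p.1 => (v : E d)) (fun i : p.2 => X' i)))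
    let I1 : Set (Finset (E d) × Finset ι) := {p | p.1 ∈ F ∧ p.1.card + p.2.card ≤ d}
    have hI1 : I1.Finite := by
      refine Set.Finite.subset (hF.prod (Set.finite_univ (α := Finset ι))) ?_
      rintro ⟨a, b⟩ h
      exact ⟨h.1, Set.mem_univ _⟩
    have htop : ∀ S ∈ Φ '' I1, S ≠ ⊤ := by
      rintro S ⟨p, hp, rfl⟩
      refine h617_span_ne_top _ ?_
      rw [Fintype.card_sum, Fintype.card_coe, Fintype.card_coe]
      exact hp.2
    obtain ⟨q, hqU, hq⟩ := hav d (Φ '' I1) (hI1.image Φ) htop (Metric.ball (X a) ε)
      Metric.isOpen_ball ⟨X a, Metric.mem_ball_self hε⟩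
    refine ⟨Function.update X' a q, ?_, ?_⟩
    · intro i
      by_cases hi : i = a
      · subst hi
        rw [Function.update_self]
        exact hqU
      · rw [Function.update_of_ne hi]
        exact hX'1 i
    · intro σ hσ y hy hcard
      by_cases hay : a ∈ y
      · have hy' : y.erase a ⊆ s := by
          intro i hi
          rw [Finset.mem_erase] at hi
          rcases Finset.mem_insert.1 (hy hi.2) with h | h
          · exact absurd h hi.1
          · exact h
        have hc : (y.erase a).card + 1 = y.card := Finset.card_erase_add_one hay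
        have hAI' := hX'2 σ hσ (y.erase a) hy' (by omega)
        let f : {z : σ ⊕ y // z ≠ Sum.inr ⟨a, hay⟩} → σ ⊕ (y.erase a : Finset ι) := fun z =>
          match z with
          | ⟨Sum.inl v, _⟩ => Sum.inl v
          | ⟨Sum.inr w, hw⟩ => Sum.inr ⟨w.1, Finset.mem_erase.2 ⟨fun h => hw (by
              rcases w with ⟨w, hw'⟩
              subst h
              rfl), w.2⟩⟩
        refine h617_add_point _ (Sum.inr ⟨a, hay⟩) _ hAI' f ?_ ?_ ?_
        · rintro ⟨(v | ⟨w, hw⟩), hz⟩ ⟨(v' | ⟨w', hw'⟩), hz'⟩ h
          · simp only [f, Sum.inl.injEq] at h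
            subst h
            rfl
          · simp [f] at h
          · simp [f] at h
          · simp only [f, Sum.inr.injEq, Subtype.mk.injEq] at h
            subst h
            rfl
        · rintro ⟨(v | ⟨w, hw⟩), hz⟩
          · rfl
          · have hwa : w ≠ a := fun h => hz (by subst h; rfl)
            change X' w = Function.update X' a q w
            rw [Function.update_of_ne hwa]
        · change Function.update X' a q a ∉ _
          rw [Function.update_self]
          exact hq _ ⟨(σ, y.erase a), ⟨hσ, by dsimp only; omega⟩, rfl⟩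
      · have hy' : y ⊆ s := by
          intro i hi
          rcases Finset.mem_insert.1 (hy hi) with h | h
          · subst h
            exact absurd hi hay
          · exact h
        have h1 := hX'2 σ hσ y hy' hcard
        have h2 : (fun i : y => Function.update X' a q i) = fun i : y => X' i := by
          funext i
          have hia : (i : ι) ≠ a := fun h => hay (h ▸ i.2)
          rw [Function.update_of_ne hia]
        rw [h2]
        exact h1

end Pool.Agent.Run7.h677.PS
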