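import Pool.Agent.Run7.h677.PS.Stm

set_option autoImplicit false

namespace Pool.Agent.Run7.h677.PS
open Finset

/-- Moving the generators by at most `δ` moves the points of the hull by at most `δ`. -/
theorem h617_hull_near {d n : ℕ} (X X'' : Fin (d + 1) → Fin n → E d) (δ : ℝ)
    (h : ∀ i j, dist (X'' i j) (X i j) ≤ δ) (A : Finset (Fin (d + 1))) (hA : A.Nonempty)
    (f : Tup d n) (z : E d) (hz : z ∈ hullX X'' A f) :
    Metric.infDist z (hullX X A f) ≤ δ := by
  obtain ⟨i0, hi0⟩ := hA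
  have hδ : 0 ≤ δ := dist_nonneg.trans (h i0 (f i0))
  have hsub : hullX X'' A f ⊆ Metric.cthickening δ (hullX X A f) := by
    refine convexHull_min ?_ ((convex_convexHull ℝ _).cthickening δ)
    rintro _ ⟨i, hi, rfl⟩
    refine Metric.mem_cthickening_of_dist_le _ (X i (f i)) δ _ ?_ (h i (f i))
    exact subset_convexHull ℝ _ ⟨i, hi, rfl⟩
  have h1 := hsub hz
  rw [Metric.mem_cthickening_iff] at h1
  exact ENNReal.toReal_le_of_le_ofReal hδ h1

theorem t_SELA : S_SM1 → S_SM2 → S_SELA := by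
  intro hsm1 hsm2 d n X hGP
  classical
  obtain ⟨δ2, hδ2, hq⟩ := hsm2 d ({A : Finset (Fin (d + 1)) // A.Nonempty} × Tup d n)
    (fun p => hullX X p.1.1 p.2) (by
      rintro ⟨⟨A, i0, hi0⟩, f⟩
      refine ⟨?_, ?_⟩
      · exact Set.Finite.isCompact_convexHull ℝ ((Finset.finite_toSet A).image _)
      · exact ⟨X i0 (f i0), subset_convexHull ℝ _ ⟨i0, hi0, rfl⟩⟩)
  refine ⟨δ2 / 2, by positivity, ?_⟩
  intro X'' hX'' σ hσ A hA
  rcases A.eq_empty_or_nonempty with he | hAne
  · have h0 : {f : Tup d n | (convexHull ℝ (σ : Set (E d)) ∩ hullX X'' A f).Nonempty} = ∅ := by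
      ext f
      simp only [Set.mem_ofPred_eq, Set.mem_empty_iff_false, iff_false]
      rintro ⟨z, _, hz⟩
      rw [he] at hz
      simp [hullX] at hz
    rw [h0, Set.ncard_empty]
    exact Nat.zero_le _
  rcases σ.eq_empty_or_nonempty with he | ⟨v, hv⟩
  · have h0 : {f : Tup d n | (convexHull ℝ (σ : Set (E d)) ∩ hullX X'' A f).Nonempty} = ∅ := by
      ext f
      simp only [Set.mem_ofPred_eq, Set.mem_empty_iff_false, iff_false]
      rintro ⟨z, hz, _⟩
      rw [he] at hz
      simp at hz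
    rw [h0, Set.ncard_empty]
    exact Nat.zero_le _
  obtain ⟨q, hq⟩ := hq v
  have hsub : {f : Tup d n | (convexHull ℝ (σ : Set (E d)) ∩ hullX X'' A f).Nonempty} ⊆
      {f : Tup d n | q ∈ hullX X A f} := by
    rintro f ⟨z, hz, hz'⟩
    refine hq (⟨A, hAne⟩, f) ?_
    have h1 := h617_hull_near X X'' (δ2 / 2) hX'' A hAne f z hz'
    have h2 : z ∈ Metric.closedBall v (δ2 / 2) := by
      refine convexHull_min ?_ (convex_closedBall v (δ2 / 2)) hz
      intro u hu
      exact hσ u hu v hv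
    have h3 : Metric.infDist v (hullX X A f) ≤ Metric.infDist z (hullX X A f) + dist v z :=
      Metric.infDist_le_infDist_add_dist
    rw [Metric.mem_closedBall, dist_comm] at h2
    dsimp only
    linarith
  calc {f : Tup d n | (convexHull ℝ (σ : Set (E d)) ∩ hullX X'' A f).Nonempty}.ncard
      ≤ {f : Tup d n | q ∈ hullX X A f}.ncard := Set.ncard_le_ncard hsub (Set.toFinite _)
    _ ≤ A.card * n ^ d := hsm1 d n X hGP A hA q
    _ ≤ d * n ^ d := Nat.mul_le_mul_right _ hA

end Pool.Agent.Run7.h677.PS
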