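import Pool.Agent.Run7.h677.PS.Stm

set_option autoImplicit false

namespace Pool.Agent.Run7.h677.PS
open Finset

/-- The uniform constant for one set of indices. -/
theorem h617_sm2_one {d : ℕ} {J : Type} (K : J → Set (E d))
    (hK : ∀ j, IsCompact (K j) ∧ (K j).Nonempty) (J' : Finset J) :
    ∃ δ : ℝ, 0 < δ ∧ ∀ x : E d, (∀ j ∈ J', Metric.infDist x (K j) ≤ δ) →
      ∃ q : E d, ∀ j ∈ J', q ∈ K j := by
  by_cases hc : ∃ q : E d, ∀ j ∈ J', q ∈ K j
  · exact ⟨1, one_pos, fun x _ => hc⟩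
  rcases J'.eq_empty_or_nonempty with he | ⟨j0, hj0⟩
  · exact absurd ⟨0, by rw [he]; intro j hj; exact absurd hj (Finset.notMem_empty j)⟩ hc
  obtain ⟨R, hR⟩ := (hK j0).1.isBounded.subset_closedBall (0 : E d)
  have hcpt : IsCompact (Metric.closedBall (0 : E d) (R + 1)) := isCompact_closedBall 0 (R + 1)
  have hR0 : 0 ≤ R := by
    obtain ⟨y, hy⟩ := (hK j0).2
    have := hR hy
    rw [mem_closedBall_zero_iff] at this
    exact (norm_nonneg y).trans this
  have hne : (Metric.closedBall (0 : E d) (R + 1)).Nonempty :=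
    ⟨0, Metric.mem_closedBall_self (by linarith)⟩
  let g : E d → ℝ := fun x => ∑ j ∈ J', Metric.infDist x (K j)
  have hg : Continuous g := by
    refine continuous_finsetSum _ (fun j _ => ?_)
    exact Metric.continuous_infDist_pt (K j)
  obtain ⟨x0, hx0, hmin⟩ := hcpt.exists_isMinOn hne hg.continuousOn
  have hpos : 0 < g x0 := by
    rcases (Finset.sum_nonneg (fun j (_ : j ∈ J') => Metric.infDist_nonneg
      (x := x0) (s := K j))).lt_or_eq with h | h
    · exact h
    · exfalso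
      apply hc
      refine ⟨x0, fun j hj => ?_⟩
      have h1 := (Finset.sum_eq_zero_iff_of_nonneg (fun j (_ : j ∈ J') => Metric.infDist_nonneg
        (x := x0) (s := K j))).1 h.symm j hj
      exact ((hK j).1.isClosed.mem_iff_infDist_zero (hK j).2).2 h1
  refine ⟨min 1 (g x0 / (J'.card + 1)), lt_min one_pos (by positivity), ?_⟩
  intro x hx
  exfalso
  have hxb : x ∈ Metric.closedBall (0 : E d) (R + 1) := by
    obtain ⟨y, hy, hxy⟩ := (hK j0).1.exists_infDist_eq_dist (hK j0).2 x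
    have h1 := (hx j0 hj0).trans (min_le_left _ _)
    rw [hxy] at h1
    have h2 := hR hy
    rw [mem_closedBall_zero_iff] at h2 ⊢
    have h3 : ‖x‖ ≤ ‖y‖ + dist x y := by
      rw [dist_eq_norm]
      calc ‖x‖ = ‖y + (x - y)‖ := by congr 1; abel
        _ ≤ ‖y‖ + ‖x - y‖ := norm_add_le _ _
    linarith
  have h1 : g x0 ≤ g x := hmin hxb
  have h2 : g x ≤ ∑ j ∈ J', g x0 / (J'.card + 1) :=
    Finset.sum_le_sum (fun j hj => (hx j hj).trans (min_le_right _ _))
  rw [Finset.sum_const, nsmul_eq_mul] at h2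
  have h3 : (J'.card : ℝ) * (g x0 / (J'.card + 1)) < g x0 := by
    have hc1 : (0 : ℝ) < (J'.card : ℝ) + 1 := by positivity
    rw [mul_div_assoc', div_lt_iff₀ hc1]
    nlinarith
  linarith

theorem t_SM2 : S_SM2 := by
  intro d J _ K hK
  classical
  have : Fintype J := Fintype.ofFinite J
  choose δ hδ hδ' using fun J' : Finset J => h617_sm2_one K hK J'
  obtain ⟨J0, _, hJ0⟩ := Finset.exists_min_image (Finset.univ : Finset (Finset J)) δ
    ⟨∅, Finset.mem_univ _⟩
  refine ⟨δ J0, hδ J0, ?_⟩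
  intro x
  obtain ⟨q, hq⟩ := hδ' (Finset.univ.filter (fun j => Metric.infDist x (K j) ≤ δ J0)) x (by
    intro j hj
    rw [Finset.mem_filter] at hj
    exact hj.2.trans (hJ0 _ (Finset.mem_univ _)))
  exact ⟨q, fun j hj => hq j (Finset.mem_filter.2 ⟨Finset.mem_univ j, hj⟩)⟩

end Pool.Agent.Run7.h677.PS
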